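import Pool.Agent.H112R2.Size
set_option autoImplicit false

/-! Iterated difference sets and the support of the function of the Fourier argument. -/

namespace Pool.Agent.Y354.PB

open Finset H112
open scoped Pointwise

variable {G : Type*} [AddCommGroup G]

/-- `x` is a sum of `N` elements of `A` minus a sum of `N` elements of `A` -/
def DS (A : Finset G) (N : ℕ) (x : G) : Prop :=
  ∃ s t : Multiset G, Multiset.card s = N ∧ Multiset.card t = N ∧ (∀ a ∈ s, a ∈ A) ∧
    (∀ a ∈ t, a ∈ A) ∧ x = s.sum - t.sum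

theorem DS.zero (A : Finset G) : DS A 0 0 :=
  ⟨0, 0, rfl, rfl, by simp, by simp, by simp⟩

theorem DS.add {A : Finset G} {N M : ℕ} {x y : G} (hx : DS A N x) (hy : DS A M y) :
    DS A (N + M) (x + y) := by
  obtain ⟨s, t, h1, h2, h3, h4, rfl⟩ := hx
  obtain ⟨s', t', h1', h2', h3', h4', rfl⟩ := hy
  refine ⟨s + s', t + t', by rw [Multiset.card_add, h1, h1'], by rw [Multiset.card_add, h2, h2'],
    ?_, ?_, ?_⟩
  · intro a ha
    rcases Multiset.mem_add.1 ha with h | h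
    exacts [h3 a h, h3' a h]
  · intro a ha
    rcases Multiset.mem_add.1 ha with h | h
    exacts [h4 a h, h4' a h]
  · rw [Multiset.sum_add, Multiset.sum_add]
    abel

theorem DS.neg {A : Finset G} {N : ℕ} {x : G} (hx : DS A N x) : DS A N (-x) := by
  obtain ⟨s, t, h1, h2, h3, h4, rfl⟩ := hx
  exact ⟨t, s, h2, h1, h4, h3, by abel⟩

/-- `x` is a sum of `N` elements of `A` -/
def SS (A : Finset G) (N : ℕ) (x : G) : Prop :=
  ∃ s : Multiset G, Multiset.card s = N ∧ (∀ a ∈ s, a ∈ A) ∧ x = s.sum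

theorem SS.add {A : Finset G} {N M : ℕ} {x y : G} (hx : SS A N x) (hy : SS A M y) :
    SS A (N + M) (x + y) := by
  obtain ⟨s, h1, h3, rfl⟩ := hx
  obtain ⟨s', h1', h3', rfl⟩ := hy
  refine ⟨s + s', by rw [Multiset.card_add, h1, h1'], ?_, ?_⟩
  · intro a ha
    rcases Multiset.mem_add.1 ha with h | h
    exacts [h3 a h, h3' a h]
  · rw [Multiset.sum_add]

theorem SS.sub {A : Finset G} {N : ℕ} {x y : G} (hx : SS A N x) (hy : SS A N y) :
    DS A N (x - y) := by
  obtain ⟨s, h1, h3, rfl⟩ := hx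
  obtain ⟨s', h1', h3', rfl⟩ := hy
  exact ⟨s, s', h1, h1', h3, h3', rfl⟩

theorem SS.one {A : Finset G} {x : G} (hx : x ∈ A) : SS A 1 x :=
  ⟨{x}, by simp, by simpa using hx, by simp⟩

/-- supports of products -/
theorem mem_supp_mul {p q : AddMonoidAlgebra ℝ G} {x : G} (hx : x ∈ (p * q).coeff.support) :
    ∃ a ∈ p.coeff.support, ∃ b ∈ q.coeff.support, x = a + b := by
  classical
  have h := support_mul_subset (C := p.coeff.support + q.coeff.support) (subset_refl _)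
    (subset_refl _) (fun a ha b hb => Finset.add_mem_add ha hb) hx
  obtain ⟨a, ha, b, hb, hab⟩ := Finset.mem_add.1 h
  exact ⟨a, ha, b, hb, hab.symm⟩

theorem mem_supp_refl {p : AddMonoidAlgebra ℝ G} {x : G} (hx : x ∈ (refl p).coeff.support) :
    -x ∈ p.coeff.support := by
  rw [Finsupp.mem_support_iff, refl_apply] at hx
  exact Finsupp.mem_support_iff.2 hx

theorem supp_pow {A : Finset G} {q : AddMonoidAlgebra ℝ G} {k : ℕ}
    (hq : ∀ x ∈ q.coeff.support, SS A k x) (n : ℕ) :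
    ∀ x ∈ (q ^ n).coeff.support, SS A (n * k) x := by
  induction n with
  | zero =>
    intro x hx
    rw [pow_zero, AddMonoidAlgebra.one_def, AddMonoidAlgebra.coeff_single] at hx
    have := Finsupp.support_single_subset hx
    rw [Finset.mem_singleton] at this
    subst this
    exact ⟨0, by simp, by simp, by simp⟩
  | succ n ih =>
    intro x hx
    rw [pow_succ] at hx
    obtain ⟨a, ha, b, hb, rfl⟩ := mem_supp_mul hx
    have := (ih a ha).add (hq b hb)
    rwa [← Nat.succ_mul] at this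

theorem supp_pow_DS {A : Finset G} {q : AddMonoidAlgebra ℝ G} {k : ℕ}
    (hq : ∀ x ∈ q.coeff.support, DS A k x) (n : ℕ) :
    ∀ x ∈ (q ^ n).coeff.support, DS A (n * k) x := by
  induction n with
  | zero =>
    intro x hx
    rw [pow_zero, AddMonoidAlgebra.one_def, AddMonoidAlgebra.coeff_single] at hx
    have := Finsupp.support_single_subset hx
    rw [Finset.mem_singleton] at this
    subst this
    rw [zero_mul]
    exact DS.zero A
  | succ n ih =>
    intro x hx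
    rw [pow_succ] at hx
    obtain ⟨a, ha, b, hb, rfl⟩ := mem_supp_mul hx
    have := (ih a ha).add (hq b hb)
    rwa [← Nat.succ_mul] at this

theorem supp_mul_refl {A : Finset G} {q : AddMonoidAlgebra ℝ G} {k : ℕ}
    (hq : ∀ x ∈ q.coeff.support, SS A k x) :
    ∀ x ∈ (q * refl q).coeff.support, DS A k x := by
  intro x hx
  obtain ⟨a, ha, b, hb, rfl⟩ := mem_supp_mul hx
  have h1 := (hq a ha).sub (hq _ (mem_supp_refl hb))
  rwa [sub_neg_eq_add] at h1

/-- the support of `f = (u * ǔ) * (r * ř)^m` with `r = (p₁p₂)^n`. -/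
theorem supp_f {A : Finset G} {p₁ p₂ : AddMonoidAlgebra ℝ G} (hs₁ : p₁.coeff.support ⊆ A)
    (hs₂ : p₂.coeff.support ⊆ A) (n m : ℕ) :
    ∀ x ∈ (U A * refl (U A) *
      ((p₁ * p₂) ^ n * refl ((p₁ * p₂) ^ n)) ^ m).coeff.support, DS A (2 * m * n + 1) x := by
  intro x hx
  obtain ⟨a, ha, b, hb, rfl⟩ := mem_supp_mul hx
  have h1 : ∀ x ∈ (p₁ * p₂).coeff.support, SS A 2 x := by
    intro x hx
    obtain ⟨a, ha, b, hb, rfl⟩ := mem_supp_mul hx
    exact (SS.one (hs₁ ha)).add (SS.one (hs₂ hb))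
  have h2 := supp_pow_DS (supp_mul_refl (supp_pow h1 n)) m b hb
  have h3 : ∀ x ∈ (U A).coeff.support, SS A 1 x := fun x hx => SS.one (size_support_U hx)
  have h4 := supp_mul_refl h3 a ha
  have h5 := h4.add h2
  have e : 1 + m * (n * 2) = 2 * m * n + 1 := by ring
  rwa [e] at h5

/-- size and location of the Bohr set of radius 1/6 of the large spectrum. -/
theorem bohr_size_supp [AddGroup.FG G] [DecidableEq G] {A : Finset G} (hA : A.Nonempty) {K : ℝ}
    (hK : ((A + A).card : ℝ) ≤ K * A.card) {p₁ p₂ : AddMonoidAlgebra ℝ G} (hp₁ : Law p₁)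
    (hp₂ : Law p₂) (hs₁ : p₁.coeff.support ⊆ A) (hs₂ : p₂.coeff.support ⊆ A)
    {D : ℝ} (hD : Real.log A.card - D ≤ H p₁) {n m : ℕ} (hn : 1 ≤ n) (hm : 1 ≤ m) {b : ℝ}
    (hb : H ((p₁ * p₂) ^ (2 * m * n)) ≤ (H p₁ + H p₂) / 2 + b)
    (h4 : (1 / 4 : ℝ) ^ m ≤ Real.exp (-(2 * b + 2 * Real.log K + 2 * D)) / 4) :
    (bohr {γ : G →+ UnitAddCircle | 1 / 2 ≤ ‖ft ((p₁ * p₂) ^ n) γ‖} (1 / 6)).Finite ∧
      ((bohr {γ : G →+ UnitAddCircle | 1 / 2 ≤ ‖ft ((p₁ * p₂) ^ n) γ‖} (1 / 6)).ncard : ℝ) ≤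
        8 * A.card * Real.exp (2 * b + 2 * Real.log K + 2 * D) ∧
      ∀ x ∈ bohr {γ : G →+ UnitAddCircle | 1 / 2 ≤ ‖ft ((p₁ * p₂) ^ n) γ‖} (1 / 6),
        DS A (2 * m * n + 1) x := by
  obtain ⟨hfin, hcard⟩ := bohr_size hA hK hp₁ hp₂ hs₁ hs₂ hD hn hm hb h4
  refine ⟨hfin, hcard, ?_⟩
  have hA0 : (0 : ℝ) < A.card := by exact_mod_cast hA.card_pos
  have hq : Law (p₁ * p₂) := hp₁.mul hp₂
  have hU : Law (U A) := law_U hA
  have hH := H_f_le hA hK hp₁ hp₂ hs₁ hD hn hm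
  set r := (p₁ * p₂) ^ n with hr
  have hrl : Law r := hq.pow n
  set f := U A * refl (U A) * (r * refl r) ^ m with hf
  obtain ⟨e, he⟩ : ∃ e, m * n = e + 1 := ⟨m * n - 1, by
    have : 1 ≤ m * n := Nat.mul_pos hm hn
    omega⟩
  have h1 : (H p₁ + H p₂) / 2 ≤ H ((p₁ * p₂) ^ (m * n)) := by
    have a1 : H p₁ ≤ H (p₁ * p₂) := H_le_mul hp₁ hp₂
    have a2 : H p₂ ≤ H (p₁ * p₂) := by rw [mul_comm]; exact H_le_mul hp₂ hp₁
    have a3 : H (p₁ * p₂) ≤ H ((p₁ * p₂) ^ (m * n)) := by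
      rw [he, pow_succ']; exact H_le_mul hq (hq.pow e)
    linarith
  have h2 : (H p₁ + H p₂) / 2 ≤ Real.log A.card := by
    have a1 : H p₁ ≤ Real.log A.card := ent_le_log_card hp₁ hs₁
    have a2 : H p₂ ≤ Real.log A.card := ent_le_log_card hp₂ hs₂
    linarith
  set c := 2 * b + 2 * Real.log K + 2 * D with hc
  have hHf : H f ≤ Real.log A.card + c := by linarith
  have hfg : f = (U A * r ^ m) * refl (U A * r ^ m) := by
    rw [hf, refl_mul, refl_pow r m, mul_pow]; ring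
  have hf0 : Real.exp (-(Real.log A.card + c)) ≤ f.coeff 0 := by
    have h3 := exp_neg_le_coeff_zero (hU.mul (hrl.pow m))
    rw [← hfg] at h3
    exact (Real.exp_le_exp.2 (by linarith)).trans h3
  have hexp : Real.exp (-(Real.log A.card + c)) = Real.exp (-c) / A.card := by
    rw [neg_add, Real.exp_add, Real.exp_neg, Real.exp_log hA0]
    field_simp
  rw [hexp] at hf0
  have hf0' : Real.exp (-c) ≤ f.coeff 0 * A.card := by
    rwa [div_le_iff₀ hA0] at hf0
  have hfpos : 0 < f.coeff 0 := lt_of_lt_of_le (by positivity) hf0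
  intro x hx
  have h3 := fg_case (G := G) hA hrl (m := m) (by
    refine h4.trans ?_
    rw [← hf]
    linarith) x hx
  rw [← hf] at h3
  have hx' : x ∈ f.coeff.support := by
    rw [Finsupp.mem_support_iff]
    intro h0
    rw [h0] at h3
    linarith
  exact supp_f hs₁ hs₂ n m x hx'

end Pool.Agent.Y354.PB
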