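import Pool.Agent.Y354.PB.Ent
import Pool.Agent.Y354.PB.NearE
import Pool.Agent.Y354.PB.Supp
set_option autoImplicit false

/-! The structure extracted from a pair of laws with controlled growth, in entropic form. -/

namespace Pool.Agent.Y354.PB

open Finset H112
open scoped Pointwise

universe v

variable {G : Type v} [AddCommGroup G]

theorem core2 [AddGroup.FG G] [DecidableEq G] {K : ℝ} {A : Finset G} (hA : A.Nonempty)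
    (hK : ((A + A).card : ℝ) ≤ K * A.card) (j : ℕ) {b D ε δ : ℝ}
    {p₁ p₂ : AddMonoidAlgebra ℝ G} (hp₁ : Law p₁) (hp₂ : Law p₂)
    (hs₁ : p₁.coeff.support ⊆ A) (hs₂ : p₂.coeff.support ⊆ A)
    (hD₁ : Real.log A.card - D ≤ H p₁)
    (hg0 : H (p₁ * p₂) ≤ (H p₁ + H p₂) / 2 + δ)
    (hg1 : H ((p₁ * p₂) ^ (2 ^ (2 * j + 1))) ≤ (H p₁ + H p₂) / 2 + b)
    (hg2 : H ((p₁ * p₂) ^ (2 ^ (j + 1))) ≤ (H p₁ + H p₂) / 2 + 2 ^ j * ε)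
    (h4 : (1 / 4 : ℝ) ^ (2 ^ j) ≤ Real.exp (-(2 * b + 2 * Real.log K + 2 * D)) / 4) :
    ∃ (S : Set (G →+ UnitAddCircle)) (Ω : Type v) (_ : Fintype Ω) (w : Ω → ℝ) (X : Ω → G),
      (bohr S (1 / 6)).Finite ∧
      ((bohr S (1 / 6)).ncard : ℝ) ≤ (8 * Real.exp (2 * b + 2 * Real.log K + 2 * D)) * A.card ∧
      (∀ x ∈ bohr S (1 / 6), DS A (2 * 4 ^ j + 1) x) ∧
      H137.PFR.Law w ∧ (∀ ω, X ω ∈ A) ∧ Function.Injective X ∧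
      (∀ ω ω', X ω - X ω' ∈ bohr S (4 * Real.sqrt ε)) ∧
      Real.log A.card - 4 / 3 * (D + Real.log 2) ≤ H137.Weak.Hg w X ∧
      H137.Weak.kap w X ≤ 4 / 3 * (2 * δ + Real.log 2) := by
  classical
  set q := p₁ * p₂ with hq
  have hqlaw : Law q := hp₁.mul hp₂
  have hn1 : 1 ≤ 2 ^ j := Nat.one_le_two_pow
  have hg1' : H (q ^ (2 * 2 ^ j * 2 ^ j)) ≤ (H p₁ + H p₂) / 2 + b := by
    have e1 : 2 * 2 ^ j * 2 ^ j = 2 ^ (2 * j + 1) := by ring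
    rw [e1]
    exact hg1
  obtain ⟨hfin, hsz, hsupp⟩ := bohr_size_supp hA hK hp₁ hp₂ hs₁ hs₂ hD₁ (n := 2 ^ j)
    (m := 2 ^ j) hn1 hn1 (b := b) hg1' h4
  have hinc : H (q ^ (2 ^ j + 1)) - H q ≤ ((2 ^ j : ℕ) : ℝ) * ε := by
    have h1 : H (q ^ (2 ^ j + 1)) ≤ H (q ^ (2 ^ (j + 1))) := by
      have e1 : q ^ (2 ^ (j + 1)) = q ^ (2 ^ j + 1) * q ^ (2 ^ j - 1) := by
        rw [← pow_add]; congr 1
        have : 2 ^ (j + 1) = 2 ^ j + 2 ^ j := by ring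
        omega
      rw [e1]
      exact H_le_mul (hqlaw.pow _) (hqlaw.pow _)
    have h3 : (H p₁ + H p₂) / 2 ≤ H q := by
      have a1 : H p₁ ≤ H q := H_le_mul hp₁ hp₂
      have a2 : H p₂ ≤ H q := by
        rw [hq, mul_comm]; exact H_le_mul hp₂ hp₁
      linarith
    push_cast
    linarith
  obtain ⟨E, hEA, hmass, hE⟩ := near_invariance_mass hp₁ hp₂ hn1 hinc
  rw [← hq] at hE
  obtain ⟨Ω, hΩ, w, X, hw, hXE, hXinj, hent, hkap⟩ :=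
    restrict hp₁ hp₂ hs₁ hEA hmass hD₁ hg0
  refine ⟨{γ | 1 / 2 ≤ ‖ft (q ^ 2 ^ j) γ‖}, Ω, hΩ, w, X, hfin, ?_, ?_, hw,
    fun ω => hs₁ (hEA (hXE ω)), hXinj, ?_, hent, hkap⟩
  · refine hsz.trans (le_of_eq ?_)
    ring
  · intro x hx
    have h1 := hsupp x hx
    have e : 2 * 2 ^ j * 2 ^ j + 1 = 2 * 4 ^ j + 1 := by
      rw [mul_assoc, ← mul_pow]
      norm_num
    rwa [e] at h1
  · intro ω ω' γ hγ
    exact hE _ (hXE ω) _ (hXE ω') γ hγ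

end Pool.Agent.Y354.PB
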