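import Pool.Agent.H137R2.Weak.Final
import Pool.Agent.H112R2.Main
set_option autoImplicit false

/-! Entropy of a law restricted to a set of large mass. -/

open scoped Classical
set_option linter.unusedSectionVars false

namespace Pool.Agent.Y354.PB

open H137.Weak

/-- a type with two elements -/
inductive Two : Type
  | y
  | n

instance : Fintype Two := ⟨⟨Two.y ::ₘ Two.n ::ₘ 0, by simp⟩, by intro x; cases x <;> simp⟩

theorem sum_two (f : Two → ℝ) : ∑ c, f c = f Two.y + f Two.n := by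
  change Multiset.sum (Multiset.map f (Two.y ::ₘ Two.n ::ₘ 0)) = _
  simp

theorem card_two : (Finset.univ : Finset Two).card = 2 := rfl

section gen

variable {Ω Ω' Ω'' α β γ : Type*} [Fintype Ω] [Fintype Ω'] [Fintype Ω'']

/-- the two notions of entropy agree -/
theorem Hg_eq_ent (w : Ω → ℝ) (X : Ω → α) :
    Hg w X = H112.ent ((H137.PFR.toF w).mapDomain X) := by
  set P := (H137.PFR.toF w).mapDomain X with hP
  have h1 : P.sum (fun y a => a * (-Real.log (P y))) =
      (H137.PFR.toF w).sum (fun x a => a * (-Real.log (P (X x)))) := by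
    rw [hP]
    exact Finsupp.sum_mapDomain_index (by intro b; simp) (by intro b m n; ring)
  have h2 : H112.ent P = P.sum (fun y a => a * (-Real.log (P y))) := by
    unfold H112.ent
    refine Finsupp.sum_congr fun x _ => ?_
    unfold Real.negMulLog
    ring
  rw [h2, h1, H137.PFR.toF_sum _ _ (by intro x; simp)]
  unfold Hg
  refine Finset.sum_congr rfl fun ω _ => ?_
  rw [H137.PFR.push_eq_mapDomain]

/-- chain rule for one variable -/
theorem Hg_chain1 [Fintype γ] {w : Ω → ℝ} (hw : H137.PFR.Law w) (X : Ω → α) (C : Ω → γ) :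
    Hg w (fun ω => (X ω, C ω)) = Hg w C +
      ∑ c, H137.PFR.push w C c * Hg (cw w C c) (fun ω => X ω.1) := by
  have hunit : H137.PFR.Law (fun _ : Unit => (1 : ℝ)) := ⟨fun _ => zero_le_one, by simp⟩
  have h3 := Hg_chain hunit hw (fun p : Unit × Ω => X p.2) C
  have h4 : Hg (H137.PFR.prod (fun _ : Unit => (1 : ℝ)) w) (fun p => (X p.2, C p.2)) =
      Hg w (fun ω => (X ω, C ω)) := Hg_snd hunit hw (fun ω => (X ω, C ω))
  rw [← h4, h3]
  congr 1
  refine Finset.sum_congr rfl fun c _ => ?_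
  by_cases hc : H137.PFR.push w C c = 0
  · rw [hc, zero_mul, zero_mul]
  · congr 1
    exact Hg_snd hunit (law_cw hw C hc) (fun ω => X ω.1)

/-- conditioning does not increase the entropy -/
theorem cond_le [Fintype γ] {w : Ω → ℝ} {w' : Ω' → ℝ} (hw : H137.PFR.Law w)
    (hw' : H137.PFR.Law w') (F : Ω' × Ω → α) (C : Ω → γ) :
    ∑ c, H137.PFR.push w C c * Hg (H137.PFR.prod w' (cw w C c)) (fun p => F (p.1, p.2.1)) ≤
      Hg (H137.PFR.prod w' w) F := by
  have hl := H137.PFR.law_prod hw' hw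
  have h1 := Hg_chain hw' hw F C
  have h2 : Hg (H137.PFR.prod w' w) (fun p => (F p, C p.2)) ≤
      Hg (H137.PFR.prod w' w) F + Hg (H137.PFR.prod w' w) (fun p => C p.2) :=
    Hg_add_of hl fun p q h3 h4 => Prod.ext h3 h4
  rw [Hg_snd hw' hw C] at h2
  linarith

/-- the Ruzsa triangle inequality with sums -/
theorem ruzsa_sum {G : Type*} [AddCommGroup G] {w : Ω → ℝ} {w' : Ω' → ℝ} {v : Ω'' → ℝ}
    (hw : H137.PFR.Law w) (hw' : H137.PFR.Law w') (hv : H137.PFR.Law v)
    (X : Ω → G) (X' : Ω' → G) (Y : Ω'' → G) :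
    Hg (H137.PFR.prod w w') (fun p => X p.1 - X' p.2) + Hg v Y ≤
      Hg (H137.PFR.prod w v) (fun p => X p.1 + Y p.2) +
      Hg (H137.PFR.prod w' v) (fun p => X' p.1 + Y p.2) := by
  have hl := H137.PFR.law_prod (H137.PFR.law_prod hw hw') hv
  have s1 : Hg (H137.PFR.prod (H137.PFR.prod w w') v) (fun p => ((X p.1.1, X' p.1.2), Y p.2)) +
      Hg (H137.PFR.prod (H137.PFR.prod w w') v) (fun p => X p.1.1 - X' p.1.2) ≤
      Hg (H137.PFR.prod (H137.PFR.prod w w') v)
        (fun p => (X p.1.1 + Y p.2, X' p.1.2 + Y p.2)) +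
      Hg (H137.PFR.prod (H137.PFR.prod w w') v) (fun p => (X p.1.1, X' p.1.2)) := by
    refine Hg_sub_of hl ?_ ?_ ?_
    · intro p q h
      simp only [Prod.mk.injEq] at h
      have e : ∀ a b c : G, a - b = (a + c) - (b + c) := fun a b c => by abel
      rw [e _ _ (Y p.2), e (X q.1.1) _ (Y q.2), h.1, h.2]
    · intro p q h
      simp only [Prod.mk.injEq] at h
      rw [h.1, h.2]
    · intro p q h h'
      simp only [Prod.mk.injEq] at h h' ⊢
      refine ⟨h', ?_⟩
      have := h.1
      rw [h'.1] at this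
      exact add_left_cancel this
  have s2 : Hg (H137.PFR.prod (H137.PFR.prod w w') v)
        (fun p => (X p.1.1 + Y p.2, X' p.1.2 + Y p.2)) ≤
      Hg (H137.PFR.prod (H137.PFR.prod w w') v) (fun p => X p.1.1 + Y p.2) +
      Hg (H137.PFR.prod (H137.PFR.prod w w') v) (fun p => X' p.1.2 + Y p.2) :=
    Hg_add_of hl fun p q h h' => Prod.ext h h'
  have s3 := Hg_prod3 hw hw' hv X X' Y
  have s4 : Hg (H137.PFR.prod (H137.PFR.prod w w') v) (fun p => (X p.1.1, X' p.1.2)) =
      Hg w X + Hg w' X' := by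
    rw [Hg_12 hw hw' hv (fun p : Ω × Ω' => (X p.1, X' p.2)), Hg_prod hw hw']
  have s5 : Hg (H137.PFR.prod (H137.PFR.prod w w') v) (fun p => X p.1.1 - X' p.1.2) =
      Hg (H137.PFR.prod w w') (fun p => X p.1 - X' p.2) :=
    Hg_12 hw hw' hv (fun p : Ω × Ω' => X p.1 - X' p.2)
  have s6 : Hg (H137.PFR.prod (H137.PFR.prod w w') v) (fun p => X p.1.1 + Y p.2) =
      Hg (H137.PFR.prod w v) (fun p => X p.1 + Y p.2) :=
    Hg_13 hw hw' hv (fun p : Ω × Ω'' => X p.1 + Y p.2)
  have s7 : Hg (H137.PFR.prod (H137.PFR.prod w w') v) (fun p => X' p.1.2 + Y p.2) =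
      Hg (H137.PFR.prod w' v) (fun p => X' p.1 + Y p.2) :=
    Hg_23 hw hw' hv (fun p : Ω' × Ω'' => X' p.1 + Y p.2)
  linarith

/-- adding an independent variable does not decrease the entropy -/
theorem Hg_le_add_right {G : Type*} [AddCommGroup G] {w : Ω → ℝ} {w' : Ω' → ℝ}
    (hw : H137.PFR.Law w) (hw' : H137.PFR.Law w') (X : Ω → G) (Y : Ω' → G) :
    Hg w X ≤ Hg (H137.PFR.prod w w') (fun p => X p.1 + Y p.2) := by
  have h := Hg_le_sub hw hw' X (fun ω => - Y ω)
  simpa only [sub_neg_eq_add] using h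

theorem Hg_le_add_left {G : Type*} [AddCommGroup G] {w : Ω → ℝ} {w' : Ω' → ℝ}
    (hw : H137.PFR.Law w) (hw' : H137.PFR.Law w') (X : Ω → G) (Y : Ω' → G) :
    Hg w' Y ≤ Hg (H137.PFR.prod w w') (fun p => X p.1 + Y p.2) := by
  have h := Hg_le_add_right hw' hw Y X
  have h2 := Hg_swap (w := w') (w' := w) hw' hw (fun p : Ω' × Ω => Y p.1 + X p.2)
  rw [h2] at h
  have h3 : Hg (H137.PFR.prod w w') (fun p : Ω × Ω' => Y p.2 + X p.1) =
      Hg (H137.PFR.prod w w') (fun p => X p.1 + Y p.2) :=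
    Hg_congr fun p q => by rw [add_comm (Y p.2), add_comm (Y q.2)]
  rw [← h3]
  exact h

/-- entropy and doubling of a variable `X` conditioned on an event of probability at least `3/4`,
where `Y` is a second variable with `X + Y` of small entropy. -/
theorem cond_event {G : Type*} [AddCommGroup G] {w : Ω → ℝ} {v : Ω' → ℝ} (hw : H137.PFR.Law w)
    (hv : H137.PFR.Law v) (X : Ω → G) (Y : Ω' → G) (C : Ω → Two)
    (hc : 3 / 4 ≤ H137.PFR.push w C Two.y) {B : ℝ} (hB : 0 ≤ B)
    (hXB : ∀ c : Two, ∀ u : {ω : Ω // C ω = c} → ℝ, H137.PFR.Law u →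
      Hg u (fun ω => X ω.1) ≤ B) :
    3 / 4 * (B - Hg (cw w C Two.y) (fun ω => X ω.1)) ≤ B - Hg w X + Real.log 2 ∧
    3 / 4 * kap (cw w C Two.y) (fun ω => X ω.1) ≤
      2 * Hg (H137.PFR.prod v w) (fun p => Y p.1 + X p.2) - Hg w X - Hg v Y + Real.log 2 := by
  set c := H137.PFR.push w C Two.y with hcdef
  set c' := H137.PFR.push w C Two.n with hc'def
  have hpush : H137.PFR.Law (H137.PFR.push w C) := H137.PFR.law_push hw C
  have hc'0 : 0 ≤ c' := hpush.1 Two.n
  have hsum : c + c' = 1 := by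
    have := hpush.2
    rw [sum_two] at this
    exact this
  have hcpos : 0 < c := by linarith
  have hlaw : H137.PFR.Law (cw w C Two.y) := law_cw hw C hcpos.ne'
  have hlog2 : Hg w C ≤ Real.log 2 := by
    have := Hg_le_log_card hw C Finset.univ (fun _ => Finset.mem_univ _)
    rw [card_two] at this
    exact_mod_cast this
  have hch := Hg_chain1 hw X C
  rw [sum_two, ← hcdef, ← hc'def] at hch
  have hXle : Hg w X ≤ Hg w (fun ω => (X ω, C ω)) :=
    Hg_le_of hw fun ω ω' h => (Prod.mk.injEq _ _ _ _ ▸ h : _ ∧ _).1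
  -- the contribution of the complement
  obtain ⟨b, hb1, hb2, hb3⟩ : ∃ b : ℝ, c' * Hg (cw w C Two.n) (fun ω => X ω.1) ≤ c' * b ∧
      b ≤ B ∧ c' * max b (Hg v Y) ≤
        c' * Hg (H137.PFR.prod v (cw w C Two.n)) (fun p => Y p.1 + X p.2.1) := by
    by_cases h0 : c' = 0
    · exact ⟨0, by rw [h0]; simp, hB, by rw [h0]; simp⟩
    · have hl' : H137.PFR.Law (cw w C Two.n) := law_cw hw C h0
      refine ⟨Hg (cw w C Two.n) (fun ω => X ω.1), le_refl _, ?_, ?_⟩
      · exact hXB Two.n _ hl'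
      · refine mul_le_mul_of_nonneg_left (max_le ?_ ?_) hc'0
        · exact Hg_le_add_left hv hl' Y (fun ω => X ω.1)
        · exact Hg_le_add_right hv hl' Y (fun ω => X ω.1)
  have hE : Hg (cw w C Two.y) (fun ω => X ω.1) ≤ B := hXB Two.y _ hlaw
  have hcl := cond_le hw hv (fun p : Ω' × Ω => Y p.1 + X p.2) C
  rw [sum_two, ← hcdef, ← hc'def] at hcl
  simp only at hcl
  set hEX := Hg (cw w C Two.y) (fun ω => X ω.1) with hEXdef
  set hEXY := Hg (H137.PFR.prod v (cw w C Two.y)) (fun p => Y p.1 + X p.2.1) with hEXYdef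
  set S := Hg (H137.PFR.prod v w) (fun p => Y p.1 + X p.2) with hS
  have hmaxb : c' * b ≤ c' * max b (Hg v Y) := mul_le_mul_of_nonneg_left (le_max_left _ _) hc'0
  have hmaxY : c' * Hg v Y ≤ c' * max b (Hg v Y) :=
    mul_le_mul_of_nonneg_left (le_max_right _ _) hc'0
  have hc'B : c' * b ≤ c' * B := mul_le_mul_of_nonneg_left hb2 hc'0
  have hkap : kap (cw w C Two.y) (fun ω => X ω.1) ≤ (hEXY - hEX) + (hEXY - Hg v Y) := by
    have h1 := ruzsa_sum hlaw hlaw hv (fun ω => X ω.1) (fun ω => X ω.1) Y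
    have h2 := Hg_swap (w := cw w C Two.y) (w' := v) hlaw hv
      (fun p : {ω : Ω // C ω = Two.y} × Ω' => X p.1.1 + Y p.2)
    have h3 : Hg (H137.PFR.prod v (cw w C Two.y))
        (fun p : Ω' × {ω : Ω // C ω = Two.y} => X p.2.1 + Y p.1) = hEXY := by
      rw [hEXYdef]
      exact Hg_congr fun p q => by rw [add_comm (X p.2.1), add_comm (X q.2.1)]
    rw [h2, h3] at h1
    unfold kap
    linarith
  have hkap0 := kap_nonneg hlaw (fun ω : {ω : Ω // C ω = Two.y} => X ω.1)
  constructor
  · have h1 : 3 / 4 * (B - hEX) ≤ c * (B - hEX) :=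
      mul_le_mul_of_nonneg_right hc (by linarith)
    have h2 : c * (B - hEX) = B - c * hEX - c' * B := by
      have : c = 1 - c' := by linarith
      rw [this]; ring
    linarith
  · have h1 : 3 / 4 * kap (cw w C Two.y) (fun ω => X ω.1) ≤
        c * kap (cw w C Two.y) (fun ω => X ω.1) := mul_le_mul_of_nonneg_right hc hkap0
    have h2 : c * kap (cw w C Two.y) (fun ω => X ω.1) ≤ c * ((hEXY - hEX) + (hEXY - Hg v Y)) :=
      mul_le_mul_of_nonneg_left hkap hcpos.le
    have h3 : c * ((hEXY - hEX) + (hEXY - Hg v Y)) =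
        2 * (c * hEXY) - c * hEX - Hg v Y + c' * Hg v Y := by
      have : c = 1 - c' := by linarith
      rw [this]; ring
    linarith

end gen

section bridge

universe v

variable {G : Type v} [AddCommGroup G]

/-- the weights of a law on its support -/
noncomputable def wt (p : AddMonoidAlgebra ℝ G) : p.coeff.support → ℝ := fun x => p.coeff x

theorem law_wt {p : AddMonoidAlgebra ℝ G} (hp : H112.Law p) : H137.PFR.Law (wt p) := by
  refine ⟨fun x => hp.1 x, ?_⟩
  unfold wt
  rw [Finset.sum_coe_sort p.coeff.support (fun x => p.coeff x)]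
  exact hp.2

theorem push_wt (p : AddMonoidAlgebra ℝ G) :
    (H137.PFR.toF (wt p)).mapDomain (fun x : p.coeff.support => (x : G)) = p.coeff := by
  ext a
  rw [← H137.PFR.push_eq_mapDomain]
  unfold H137.PFR.push wt
  rw [Finset.sum_coe_sort p.coeff.support (fun x => if x = a then p.coeff x else 0)]
  by_cases ha : a ∈ p.coeff.support
  · rw [Finset.sum_ite_eq' , if_pos ha]
  · rw [Finset.sum_ite_eq', if_neg ha]
    exact (Finsupp.notMem_support_iff.1 ha).symm

theorem Hg_wt (p : AddMonoidAlgebra ℝ G) :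
    Hg (wt p) (fun x : p.coeff.support => (x : G)) = H112.H p := by
  rw [Hg_eq_ent, push_wt]
  rfl

theorem Hg_wt_mul (p q : AddMonoidAlgebra ℝ G) :
    Hg (H137.PFR.prod (wt p) (wt q))
      (fun z : p.coeff.support × q.coeff.support => (z.1 : G) + z.2) = H112.H (p * q) := by
  rw [Hg_eq_ent]
  unfold H112.H
  rw [H112.coeff_mul]
  congr 1
  have h1 : H112.prodLaw p.coeff q.coeff = (H137.PFR.toF (H137.PFR.prod (wt p) (wt q))).mapDomain
      (fun z : p.coeff.support × q.coeff.support => ((z.1 : G), (z.2 : G))) := by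
    ext ⟨a, b⟩
    rw [← H137.PFR.push_eq_mapDomain, H112.prodLaw_apply]
    unfold H137.PFR.push H137.PFR.prod
    rw [Fintype.sum_prod_type]
    have h2 : ∀ x : p.coeff.support, ∑ y : q.coeff.support,
        (if ((x : G), (y : G)) = (a, b) then wt p x * wt q y else 0) =
        (if (x : G) = a then wt p x else 0) * ∑ y : q.coeff.support,
          (if (y : G) = b then wt q y else 0) := by
      intro x
      rw [Finset.mul_sum]
      refine Finset.sum_congr rfl fun y _ => ?_
      by_cases h3 : (x : G) = a <;> by_cases h4 : (y : G) = b <;> simp [h3, h4]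
    simp only [h2]
    rw [← Finset.sum_mul]
    have h5 : ∀ (r : AddMonoidAlgebra ℝ G) (c : G),
        ∑ x : r.coeff.support, (if (x : G) = c then wt r x else 0) = r.coeff c := by
      intro r c
      have h6 : (H137.PFR.toF (wt r)).mapDomain (fun x : r.coeff.support => (x : G)) c =
          r.coeff c := by rw [push_wt]
      rw [← H137.PFR.push_eq_mapDomain] at h6
      exact h6
    rw [h5, h5]
  rw [h1, ← Finsupp.mapDomain_comp]
  rfl

/-- the restriction of a law to a set of mass at least `3/4` keeps entropy and doubling. -/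
theorem restrict {A : Finset G} {p q : AddMonoidAlgebra ℝ G} (hp : H112.Law p) (hq : H112.Law q)
    (hs : p.coeff.support ⊆ A) {E : Finset G} (hE : E ⊆ p.coeff.support)
    (hmass : 3 / 4 ≤ ∑ x ∈ E, p.coeff x) {D δ : ℝ}
    (hD : Real.log A.card - D ≤ H112.H p)
    (hδ : H112.H (p * q) ≤ (H112.H p + H112.H q) / 2 + δ) :
    ∃ (Ω : Type v) (_ : Fintype Ω) (w : Ω → ℝ) (X : Ω → G), H137.PFR.Law w ∧ (∀ ω, X ω ∈ E) ∧
      Function.Injective X ∧
      Real.log A.card - 4 / 3 * (D + Real.log 2) ≤ Hg w X ∧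
      kap w X ≤ 4 / 3 * (2 * δ + Real.log 2) := by
  have hA : A.Nonempty := by
    rw [Finset.nonempty_iff_ne_empty]
    rintro rfl
    rw [Finset.subset_empty.1 hs] at hE
    rw [Finset.subset_empty.1 hE, Finset.sum_empty] at hmass
    norm_num at hmass
  have hApos : (1 : ℝ) ≤ A.card := by exact_mod_cast hA.card_pos
  have hB : 0 ≤ Real.log A.card := Real.log_nonneg hApos
  let C : p.coeff.support → Two := fun x => if (x : G) ∈ E then Two.y else Two.n
  have hC : ∀ x, C x = Two.y ↔ (x : G) ∈ E := by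
    intro x
    by_cases h : (x : G) ∈ E
    · simp [C, h]
    · simp [C, h]
  have hc : H137.PFR.push (wt p) C Two.y = ∑ x ∈ E, p.coeff x := by
    unfold H137.PFR.push wt
    have h1 : ∀ x : p.coeff.support, (if C x = Two.y then p.coeff (x : G) else 0) =
        (fun y : G => if y ∈ E then p.coeff y else 0) (x : G) := by
      intro x
      by_cases h : (x : G) ∈ E
      · simp only [h, if_true, (hC x).2 h]
      · rw [if_neg (fun h2 => h ((hC x).1 h2))]
        simp only [h, if_false]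
    rw [Finset.sum_congr rfl fun x _ => h1 x,
      Finset.sum_coe_sort p.coeff.support (fun y : G => if y ∈ E then p.coeff y else 0),
      ← Finset.sum_filter]
    congr 1
    ext x
    rw [Finset.mem_filter]
    exact ⟨fun h => h.2, fun h => ⟨hE h, h⟩⟩
  have hXB : ∀ c : Two, ∀ u : {ω : p.coeff.support // C ω = c} → ℝ, H137.PFR.Law u →
      Hg u (fun ω => (ω.1 : G)) ≤ Real.log A.card := by
    intro c u hu
    exact Hg_le_log_card hu _ A (fun ω => hs ω.1.2)
  have hcpos : H137.PFR.push (wt p) C Two.y ≠ 0 := by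
    rw [hc]
    intro h
    rw [h] at hmass
    norm_num at hmass
  have key := cond_event (law_wt hp) (law_wt hq) (fun x : p.coeff.support => (x : G))
    (fun y : q.coeff.support => (y : G)) C (by rw [hc]; exact hmass) hB hXB
  rw [Hg_wt, Hg_wt, Hg_wt_mul, mul_comm q p] at key
  refine ⟨{ω : p.coeff.support // C ω = Two.y}, inferInstance, cw (wt p) C Two.y,
    fun ω => (ω.1 : G), law_cw (law_wt hp) C hcpos, ?_, ?_, ?_, ?_⟩
  · intro ω
    exact (hC _).1 ω.2
  · intro ω ω' h
    exact Subtype.ext (Subtype.ext h)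
  · have := key.1
    linarith
  · have := key.2
    linarith

end bridge

end Pool.Agent.Y354.PB
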