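import Mathlib
set_option autoImplicit false

/-! Numerical lemmas for the choice of parameters. -/

namespace Pool.Agent.Y354.PB

theorem num_q {L u q : ℕ} (hL : 16 ≤ L) (hq : q = 8 * u / L + 1) :
    8 * ((u : ℝ) / L) ≤ q ∧ (q : ℝ) ≤ 8 * ((u : ℝ) / L) + 1 := by
  have hL0 : (0 : ℝ) < L := by
    have : 0 < L := by omega
    exact_mod_cast this
  have hLpos : 0 < L := by omega
  constructor
  · have h1 : 8 * u < L * (8 * u / L + 1) := by
      have := Nat.lt_mul_div_succ (8 * u) hLpos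
      simpa using this
    have h2 : (8 * (u : ℝ)) ≤ L * q := by
      rw [hq]; exact_mod_cast h1.le
    have h3 : 8 * ((u : ℝ) / L) = (8 * u) / L := by ring
    rw [h3, div_le_iff₀ hL0]
    linarith
  · have h1 : (8 * u / L) * L ≤ 8 * u := Nat.div_mul_le_self _ _
    have h2 : (((8 * u / L : ℕ) : ℝ)) * L ≤ 8 * u := by exact_mod_cast h1
    have h3 : 8 * ((u : ℝ) / L) = (8 * u) / L := by ring
    have h4 : ((8 * u / L : ℕ) : ℝ) ≤ (8 * u) / L := by
      rw [le_div_iff₀ hL0]; exact h2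
    rw [hq, h3]
    push_cast
    linarith

theorem num_core {L u q j : ℕ} (hL : 16 ≤ L) (hq : q = 8 * u / L + 1) (hj : j = u + q) :
    ((j : ℝ) + 2) * (1 + 1 / (L : ℝ)) ^ (2 * j + 1) ≤ 2 * L * Real.exp (4 * ((u : ℝ) / L)) ∧
      Real.exp (4 * ((u : ℝ) / L)) ≤ 2 ^ q := by
  have hLr : (16 : ℝ) ≤ L := by exact_mod_cast hL
  have hL0 : (0 : ℝ) < L := by linarith
  obtain ⟨hq1, hq2⟩ := num_q hL hq
  obtain ⟨x, hx⟩ : ∃ x : ℝ, x = (u : ℝ) / L := ⟨_, rfl⟩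
  rw [← hx] at hq1 hq2 ⊢
  have hu : (u : ℝ) = x * L := by rw [hx]; field_simp
  have hx0 : 0 ≤ x := by rw [hx]; positivity
  have hjr : (j : ℝ) = x * L + q := by rw [hj]; push_cast; rw [hu]
  have hxL : 16 * x ≤ x * L := by nlinarith
  constructor
  · have h1 : (j : ℝ) + 2 ≤ 3 / 2 * (L * Real.exp x) := by
      have e1 : x + 1 ≤ Real.exp x := Real.add_one_le_exp x
      have e2 : L * (x + 1) ≤ L * Real.exp x := mul_le_mul_of_nonneg_left e1 hL0.le
      nlinarith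
    have h2 : (1 + 1 / (L : ℝ)) ^ (2 * j + 1) ≤ Real.exp (3 * x + 3 / 16) := by
      have e1 : 1 + 1 / (L : ℝ) ≤ Real.exp (1 / L) := by
        have := Real.add_one_le_exp (1 / (L : ℝ))
        linarith
      calc (1 + 1 / (L : ℝ)) ^ (2 * j + 1) ≤ (Real.exp (1 / L)) ^ (2 * j + 1) :=
            pow_le_pow_left₀ (by positivity) e1 _
        _ = Real.exp ((2 * j + 1) / L) := by
            rw [← Real.exp_nat_mul]
            congr 1
            push_cast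
            ring
        _ ≤ Real.exp (3 * x + 3 / 16) := by
            apply Real.exp_le_exp.2
            rw [div_le_iff₀ hL0, hjr]
            nlinarith
    have h3 : Real.exp (3 / 16 : ℝ) ≤ 4 / 3 := by
      have e1 : (3 / 16 : ℝ) ≤ 1 / 4 := by norm_num
      have e2 : Real.exp (1 / 4 : ℝ) ≤ 4 / 3 := by
        have e3 := Real.exp_bound_div_one_sub_of_interval (x := (1 / 4 : ℝ)) (by norm_num)
          (by norm_num)
        refine e3.trans (by norm_num)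
      exact (Real.exp_le_exp.2 e1).trans e2
    have h4 : 0 < Real.exp x := Real.exp_pos x
    calc ((j : ℝ) + 2) * (1 + 1 / (L : ℝ)) ^ (2 * j + 1)
        ≤ (3 / 2 * (L * Real.exp x)) * Real.exp (3 * x + 3 / 16) :=
          mul_le_mul h1 h2 (by positivity) (by positivity)
      _ = 3 / 2 * L * Real.exp (4 * x) * Real.exp (3 / 16) := by
          rw [Real.exp_add, show 4 * x = x + 3 * x by ring, Real.exp_add]
          ring
      _ ≤ 3 / 2 * L * Real.exp (4 * x) * (4 / 3) :=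
          mul_le_mul_of_nonneg_left h3 (by positivity)
      _ = 2 * L * Real.exp (4 * x) := by ring
  · have h1 : (2 : ℝ) ^ q = Real.exp (q * Real.log 2) := by
      rw [Real.exp_nat_mul, Real.exp_log (by norm_num)]
    rw [h1]
    apply Real.exp_le_exp.2
    have h2 : (0.69 : ℝ) < Real.log 2 := by have := Real.log_two_gt_d9; linarith
    have h3 : (q : ℝ) * (1 / 2) ≤ q * Real.log 2 :=
      mul_le_mul_of_nonneg_left (by linarith) (Nat.cast_nonneg q)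
    linarith

/-- the size of `2 ^ u` -/
theorem num_M {κ : ℝ} {L l a r u R : ℕ} (hκ : 0.69 < κ) (ha' : (2 : ℝ) ^ a ≤ 2 * (1 + κ))
    (hr' : (2 : ℝ) ^ r ≤ 2 * R) (hl' : (2 : ℝ) ^ l ≤ 2 * L) (hu : u = a + 2 * r + l + 15) :
    (2 : ℝ) ^ u ≤ (2 ^ 19 * L) * (R ^ 2 * (1 + κ)) := by
  have h1 : (2 : ℝ) ^ u = 2 ^ a * (2 ^ r) ^ 2 * 2 ^ l * 2 ^ 15 := by
    rw [hu]; ring
  rw [h1]
  calc (2 : ℝ) ^ a * (2 ^ r) ^ 2 * 2 ^ l * 2 ^ 15
      ≤ (2 * (1 + κ)) * (2 * R) ^ 2 * (2 * L) * 2 ^ 15 := by gcongr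
    _ = (2 ^ 19 * L) * (R ^ 2 * (1 + κ)) := by ring

theorem num_exp {κ ε : ℝ} {L l a r u R : ℕ} (hε : 0 < ε) (hκ : 0.69 < κ) (hL : 16 / ε ≤ L)
    (hL16 : 16 ≤ L) (hR : 1 ≤ R)
    (ha' : (2 : ℝ) ^ a ≤ 2 * (1 + κ))
    (hr' : (2 : ℝ) ^ r ≤ 2 * R) (hl' : (2 : ℝ) ^ l ≤ 2 * L) (hu : u = a + 2 * r + l + 15) :
    Real.exp (4 * ((u : ℝ) / L)) ≤ 580 * (R ^ 2 * (1 + κ)) ^ ε := by
  have hLr : (16 : ℝ) ≤ L := by exact_mod_cast hL16
  have hL0 : (0 : ℝ) < L := by linarith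
  have hRr : (1 : ℝ) ≤ R := by exact_mod_cast hR
  have hM := num_M hκ ha' hr' hl' hu
  obtain ⟨s, hs⟩ : ∃ s : ℝ, s = R ^ 2 * (1 + κ) := ⟨_, rfl⟩
  rw [← hs] at hM ⊢
  have hs1 : 1 ≤ s := by
    rw [hs]
    have : (1 : ℝ) ≤ (R : ℝ) ^ 2 := one_le_pow₀ hRr
    nlinarith
  have hlogs : 0 ≤ Real.log s := Real.log_nonneg hs1
  have h2 : (0.69 : ℝ) < Real.log 2 := by have := Real.log_two_gt_d9; linarith
  have h2' : Real.log 2 < 0.6932 := by have := Real.log_two_lt_d9; linarith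
  have hlogL : Real.log L ≤ L / 4 := by
    have e1 : Real.log (L / 16) ≤ L / 16 - 1 := by
      have := Real.log_le_sub_one_of_pos (show (0 : ℝ) < L / 16 by positivity)
      exact this
    have e2 : Real.log L = Real.log (L / 16) + Real.log 16 := by
      rw [← Real.log_mul (by positivity) (by norm_num)]
      congr 1
      ring
    have e3 : Real.log 16 = 4 * Real.log 2 := by
      rw [show (16 : ℝ) = 2 ^ 4 by norm_num, Real.log_pow]; norm_num
    rw [e2, e3]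
    linarith
  have hlogM : (u : ℝ) * Real.log 2 ≤ 19 * Real.log 2 + Real.log L + Real.log s := by
    have e1 := Real.log_le_log (by positivity) hM
    rw [Real.log_pow, Real.log_mul (by positivity) (by positivity),
      Real.log_mul (by positivity) (by positivity), Real.log_pow] at e1
    push_cast at e1
    linarith
  have hu2 : (u : ℝ) ≤ 19 + 1.45 * Real.log L + 1.45 * Real.log s := by
    have hlogL0 : 0 ≤ Real.log L := Real.log_nonneg (by linarith)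
    by_contra hcon
    push Not at hcon
    have e1 : (19 + 1.45 * Real.log L + 1.45 * Real.log s) * Real.log 2 < u * Real.log 2 :=
      mul_lt_mul_of_pos_right hcon (by linarith)
    have e2 : 0 ≤ Real.log L * (1.45 * Real.log 2 - 1) := mul_nonneg hlogL0 (by linarith)
    have e3 : 0 ≤ Real.log s * (1.45 * Real.log 2 - 1) := mul_nonneg hlogs (by linarith)
    nlinarith
  have hεL : 16 ≤ ε * L := by
    rw [div_le_iff₀ hε] at hL
    linarith
  have h4 : 4 * ((u : ℝ) / L) ≤ 6.3 + ε * Real.log s := by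
    have e1 : 4 * ((u : ℝ) / L) = (4 * u) / L := by ring
    rw [e1, div_le_iff₀ hL0]
    have e2 : 16 * Real.log s ≤ ε * L * Real.log s := mul_le_mul_of_nonneg_right hεL hlogs
    nlinarith
  calc Real.exp (4 * ((u : ℝ) / L)) ≤ Real.exp (6.3 + ε * Real.log s) := Real.exp_le_exp.2 h4
    _ = Real.exp 6.3 * s ^ ε := by
        rw [Real.exp_add, Real.rpow_def_of_pos (by linarith), mul_comm ε]
    _ ≤ 580 * s ^ ε := by
        apply mul_le_mul_of_nonneg_right _ (by positivity)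
        have e1 : Real.exp 6.3 ≤ Real.exp 1 ^ (6.3 : ℝ) := by
          rw [← Real.exp_mul, one_mul]
        have e2 : Real.exp 1 < 2.7182818286 := Real.exp_one_lt_d9
        have e3 : Real.exp 6.3 ≤ (Real.exp 1) ^ 6 * Real.exp 0.3 := by
          rw [← Real.exp_nat_mul, ← Real.exp_add]
          apply Real.exp_le_exp.2
          norm_num
        have e4 : Real.exp 0.3 ≤ 1.43 := by
          have e5 := Real.exp_bound_div_one_sub_of_interval (x := (0.3 : ℝ)) (by norm_num)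
            (by norm_num)
          refine e5.trans (by norm_num)
        have e5 : (Real.exp 1) ^ 6 ≤ 2.7183 ^ 6 :=
          pow_le_pow_left₀ (Real.exp_pos 1).le (by linarith) 6
        calc Real.exp 6.3 ≤ (Real.exp 1) ^ 6 * Real.exp 0.3 := e3
          _ ≤ 2.7183 ^ 6 * 1.43 := mul_le_mul e5 e4 (Real.exp_pos _).le (by norm_num)
          _ ≤ 580 := by norm_num

/-- from `1 + κ` to `κ` -/
theorem num_s {κ p : ℝ} {R : ℕ} (hκ : 0.69 < κ) (hp0 : 0 ≤ p) (hR : 1 ≤ R) :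
    ((R : ℝ) ^ 2 * (1 + κ)) ^ p ≤ 2.45 ^ p * ((R : ℝ) ^ 2 * κ) ^ p := by
  have hRr : (1 : ℝ) ≤ R := by exact_mod_cast hR
  rw [← Real.mul_rpow (by norm_num) (by positivity)]
  apply Real.rpow_le_rpow (by positivity) _ hp0
  have : (0 : ℝ) < (R : ℝ) ^ 2 := by positivity
  nlinarith

theorem num_count {κ ε : ℝ} {L l a r u q j R : ℕ} (hε : 0 < ε) (hε1 : ε ≤ 1) (hκ : 0.69 < κ)
    (hL : 16 / ε ≤ L) (hL' : (L : ℝ) ≤ 17 / ε) (hL16 : 16 ≤ L) (hR : 1 ≤ R)
    (ha' : (2 : ℝ) ^ a ≤ 2 * (1 + κ))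
    (hr' : (2 : ℝ) ^ r ≤ 2 * R) (hl' : (2 : ℝ) ^ l ≤ 2 * L) (hu : u = a + 2 * r + l + 15)
    (hq : q = 8 * u / L + 1) (hj : j = u + q) :
    (2 * 4 ^ j + 1 : ℝ) ≤ (60000000 / ε) ^ 3 * ((R : ℝ) ^ 2 * κ) ^ (2 + ε) := by
  have hLr : (16 : ℝ) ≤ L := by exact_mod_cast hL16
  have hL0 : (0 : ℝ) < L := by linarith
  have hRr : (1 : ℝ) ≤ R := by exact_mod_cast hR
  have hM := num_M hκ ha' hr' hl' hu
  obtain ⟨hq1, hq2⟩ := num_q hL16 hq
  obtain ⟨s, hs⟩ : ∃ s : ℝ, s = R ^ 2 * (1 + κ) := ⟨_, rfl⟩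
  have hnums := num_s (p := 2 + ε) hκ (by linarith) hR
  rw [← hs] at hM hnums
  have hs1 : 1 ≤ s := by
    rw [hs]
    have : (1 : ℝ) ≤ (R : ℝ) ^ 2 := one_le_pow₀ hRr
    nlinarith
  obtain ⟨M, hMdef⟩ : ∃ M : ℝ, M = (2 ^ 19 * L) * s := ⟨_, rfl⟩
  rw [← hMdef] at hM
  have hM1 : 1 ≤ M := hM.trans' (one_le_pow₀ (by norm_num))
  have hεL : 16 / (L : ℝ) ≤ ε := by
    rw [div_le_iff₀ hL0]
    rw [div_le_iff₀ hε] at hL
    linarith
  -- `4 ^ j ≤ 4 * M ^ (2 + ε)`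
  have h4j : (4 : ℝ) ^ j ≤ 4 * M ^ (2 + ε) := by
    have e1 : (4 : ℝ) ^ j = (2 : ℝ) ^ (2 * (j : ℝ)) := by
      have : (4 : ℝ) ^ j = (2 : ℝ) ^ (2 * j) := by rw [pow_mul]; norm_num
      rw [this, ← Real.rpow_natCast]
      congr 1
      push_cast
      ring
    have e2 : 2 * (j : ℝ) ≤ 2 + u * (2 + 16 / L) := by
      rw [hj]
      push_cast
      have : (u : ℝ) * (2 + 16 / L) = 2 * u + 2 * (8 * ((u : ℝ) / L)) := by ring
      linarith
    calc (4 : ℝ) ^ j = (2 : ℝ) ^ (2 * (j : ℝ)) := e1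
      _ ≤ (2 : ℝ) ^ (2 + u * (2 + 16 / (L : ℝ))) :=
          Real.rpow_le_rpow_of_exponent_le (by norm_num) e2
      _ = 4 * ((2 : ℝ) ^ u) ^ (2 + 16 / (L : ℝ)) := by
          rw [Real.rpow_add (by norm_num), Real.rpow_mul (by norm_num), Real.rpow_natCast]
          norm_num
      _ ≤ 4 * M ^ (2 + 16 / (L : ℝ)) := by
          apply mul_le_mul_of_nonneg_left _ (by norm_num)
          exact Real.rpow_le_rpow (by positivity) hM (by positivity)
      _ ≤ 4 * M ^ (2 + ε) := by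
          apply mul_le_mul_of_nonneg_left _ (by norm_num)
          exact Real.rpow_le_rpow_of_exponent_le hM1 (by linarith)
  have hone : (1 : ℝ) ≤ 4 ^ j := one_le_pow₀ (by norm_num)
  have hML : M ^ (2 + ε) ≤ (2 ^ 19 * (17 / ε)) ^ 3 * s ^ (2 + ε) := by
    rw [hMdef, Real.mul_rpow (by positivity) (by linarith)]
    apply mul_le_mul_of_nonneg_right _ (by positivity)
    calc (2 ^ 19 * (L : ℝ)) ^ (2 + ε) ≤ (2 ^ 19 * (L : ℝ)) ^ (3 : ℝ) := by
          apply Real.rpow_le_rpow_of_exponent_le _ (by linarith)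
          nlinarith
      _ = (2 ^ 19 * (L : ℝ)) ^ 3 := by norm_cast
      _ ≤ (2 ^ 19 * (17 / ε)) ^ 3 := by
          apply pow_le_pow_left₀ (by positivity)
          exact mul_le_mul_of_nonneg_left hL' (by norm_num)
  have h245 : (2.45 : ℝ) ^ (2 + ε) ≤ 2.45 ^ 3 := by
    calc (2.45 : ℝ) ^ (2 + ε) ≤ 2.45 ^ (3 : ℝ) :=
          Real.rpow_le_rpow_of_exponent_le (by norm_num) (by linarith)
      _ = 2.45 ^ 3 := by norm_cast
  have hX0 : 0 ≤ ((R : ℝ) ^ 2 * κ) ^ (2 + ε) := by positivity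
  have hs2 : s ^ (2 + ε) ≤ 2.45 ^ 3 * ((R : ℝ) ^ 2 * κ) ^ (2 + ε) :=
    hnums.trans (mul_le_mul_of_nonneg_right h245 hX0)
  calc (2 * 4 ^ j + 1 : ℝ) ≤ 3 * 4 ^ j := by linarith
    _ ≤ 3 * (4 * M ^ (2 + ε)) := by linarith
    _ ≤ 3 * (4 * ((2 ^ 19 * (17 / ε)) ^ 3 * (2.45 ^ 3 * ((R : ℝ) ^ 2 * κ) ^ (2 + ε)))) := by
        have : (2 ^ 19 * (17 / ε)) ^ 3 * s ^ (2 + ε) ≤
            (2 ^ 19 * (17 / ε)) ^ 3 * (2.45 ^ 3 * ((R : ℝ) ^ 2 * κ) ^ (2 + ε)) :=
          mul_le_mul_of_nonneg_left hs2 (by positivity)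
        linarith
    _ = (12 * (2 ^ 19 * 17) ^ 3 * 2.45 ^ 3 / ε ^ 3) * ((R : ℝ) ^ 2 * κ) ^ (2 + ε) := by
        rw [mul_pow, mul_pow, div_pow]
        ring
    _ ≤ (60000000 / ε) ^ 3 * ((R : ℝ) ^ 2 * κ) ^ (2 + ε) := by
        apply mul_le_mul_of_nonneg_right _ hX0
        rw [div_pow]
        apply div_le_div_of_nonneg_right _ (by positivity)
        norm_num

end Pool.Agent.Y354.PB
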